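import Mathlib
import Pool.Agent.Lib_MP_079569_co.Defs
import Pool.Agent.Lib_MP_079569_co.Det

/-!
The adjacency determinant of an `R`-disjoint graph is the product of the determinants of the parts
of its flower decomposition.
-/

namespace Pool.Agent.Results.MP_079569_co.DetFactorization

open Pool.Agent.Lib_MP_079569_co

open Classical in
/-- If `G` is `R`-disjoint, with odd cycles `C` and flower decomposition `B(G)`, `R(C)`, then
`det A(G) = det A(G[B(G)]) * ∏_C det A(G[R(C)])`, the product being over all the odd cycles `C`
of `G`. -/
theorem result {V : Type*} [Fintype V] (G : SimpleGraph V) (hG : RDisjoint G) :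
    (G.adjMatrix ℝ).det = ((G.induce (bipartitePart G)).adjMatrix ℝ).det *
      ∏ᶠ C : {C : G.Subgraph // IsOddCycle G C}, ((G.induce (reach G C.1)).adjMatrix ℝ).det :=
  det_main hG

end Pool.Agent.Results.MP_079569_co.DetFactorization
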